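import Mathlib

/-!
# MP_35c2f5_co: locally finite perturbations of tournaments avoiding a fixed tournament

Let `T` be the tournament with five vertices which arises from the directed triangle by doubling
two of its vertices: `a → b₁, b₂ → c₁, c₂ → a`, with `b₁ → b₂` and `c₁ → c₂`. Every countable
tournament without a copy of `T` becomes a linear order after the reversal of a locally finite
set of arcs. Hence every countably infinite `T`-free tournament has a locally finite perturbation
which is `T`-free, and the answer to Q1 is negative.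
-/

namespace Pool.Agent.Results.MP_35c2f5_co.BlownUpTriangle

/-- The relation `r` is a tournament: no loops, exactly one arc between two distinct vertices. -/
def IsTournament {V : Type} (r : V → V → Prop) : Prop :=
  (∀ x, ¬ r x x) ∧ ∀ x y, x ≠ y → (r x y ↔ ¬ r y x)

/-- The tournament (relation) `r` is transitive, i.e. a strict linear order. -/
def IsTransitive {V : Type} (r : V → V → Prop) : Prop :=
  ∀ x y z, r x y → r y z → r x z

/-- `r` contains an (induced) copy of `t`. -/
def Contains {W V : Type} (t : W → W → Prop) (r : V → V → Prop) : Prop :=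
  ∃ f : W → V, Function.Injective f ∧ ∀ i j, t i j ↔ r (f i) (f j)

/-- `F` is a set of arcs of `r` such that every vertex is incident to finitely many arcs of `F`. -/
def LocallyFiniteArcs {V : Type} (r F : V → V → Prop) : Prop :=
  (∀ x y, F x y → r x y) ∧ ∀ x, {y | F x y ∨ F y x}.Finite

/-- The result of reversing the arcs in `F`. -/
def reverse {V : Type} (r F : V → V → Prop) : V → V → Prop :=
  fun x y => (r x y ∧ ¬ F x y) ∨ F y x

/-- `s` is a locally finite perturbation of `r`. -/
def Perturbation {V : Type} (r s : V → V → Prop) : Prop :=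
  ∃ F : V → V → Prop, LocallyFiniteArcs r F ∧ (∃ x y, F x y) ∧ s = reverse r F

/-- The tournament `a → b₁, b₂ → c₁, c₂ → a`, `b₁ → b₂`, `c₁ → c₂`
(`a = 0`, `b₁ = 1`, `b₂ = 2`, `c₁ = 3`, `c₂ = 4`). -/
def T (i j : Fin 5) : Prop :=
  (i, j) ∈ ([(0, 1), (0, 2), (1, 2), (1, 3), (1, 4), (2, 3), (2, 4), (3, 4), (3, 0), (4, 0)] :
    List (Fin 5 × Fin 5))

instance : DecidableRel T := fun i j => by unfold T; infer_instance

lemma T_tournament : IsTournament T := by
  unfold IsTournament
  decide

lemma T_not_transitive : ¬ IsTransitive T := by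
  intro h
  have := h 0 1 3 (by decide) (by decide)
  exact absurd this (by decide)

/-- The pattern of a copy of `T`. -/
def Pat {V : Type} (r : V → V → Prop) : Prop :=
  ∃ a b b' c c' : V, b ≠ b' ∧ c ≠ c' ∧ r a b ∧ r a b' ∧ r b c ∧ r b c' ∧ r b' c ∧ r b' c' ∧
    r c a ∧ r c' a

variable {V : Type} {r : V → V → Prop}

lemma asymm (hr : IsTournament r) {x y : V} (h : r x y) : ¬ r y x := by
  by_cases hxy : x = y
  · subst hxy; exact hr.1 x
  · exact (hr.2 x y hxy).1 h

lemma ne_of (hr : IsTournament r) {x y : V} (h : r x y) : x ≠ y := by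
  rintro rfl; exact hr.1 x h

lemma of_not (hr : IsTournament r) {x y : V} (hne : x ≠ y) (h : ¬ r y x) : r x y :=
  (hr.2 x y hne).2 h

lemma pat_of_contains (h : Contains T r) : Pat r := by
  obtain ⟨f, hf, h⟩ := h
  refine ⟨f 0, f 1, f 2, f 3, f 4, hf.ne (by decide), hf.ne (by decide), ?_, ?_, ?_, ?_, ?_, ?_,
    ?_, ?_⟩ <;> exact (h _ _).1 (by decide)

lemma contains_of (hr : IsTournament r) (a b b' c c' : V) (h1 : r a b) (h2 : r a b') (h3 : r b c)
    (h4 : r b c') (h5 : r b' c) (h6 : r b' c') (h7 : r c a) (h8 : r c' a) (hbb : r b b')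
    (hcc : r c c') : Contains T r := by
  refine ⟨![a, b, b', c, c'], ?_, ?_⟩
  · have e1 := ne_of hr h1
    have e2 := ne_of hr h2
    have e3 := ne_of hr h3
    have e4 := ne_of hr h4
    have e5 := ne_of hr h5
    have e6 := ne_of hr h6
    have e7 := ne_of hr h7
    have e8 := ne_of hr h8
    have e9 := ne_of hr hbb
    have e10 := ne_of hr hcc
    intro i j hij
    fin_cases i <;> fin_cases j <;> simp_all
  · have n := @asymm V r hr
    have n0 := hr.1
    have m1 := n h1
    have m2 := n h2
    have m3 := n h3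
    have m4 := n h4
    have m5 := n h5
    have m6 := n h6
    have m7 := n h7
    have m8 := n h8
    have m9 := n hbb
    have m10 := n hcc
    intro i j
    fin_cases i <;> fin_cases j <;> simp [T, *]

lemma contains_of_pat (hr : IsTournament r) (h : Pat r) : Contains T r := by
  obtain ⟨a, b, b', c, c', hb, hc, h1, h2, h3, h4, h5, h6, h7, h8⟩ := h
  by_cases hbb : r b b' <;> by_cases hcc : r c c'
  · exact contains_of hr a b b' c c' h1 h2 h3 h4 h5 h6 h7 h8 hbb hcc
  · exact contains_of hr a b b' c' c h1 h2 h4 h3 h6 h5 h8 h7 hbb (of_not hr hc.symm hcc)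
  · exact contains_of hr a b' b c c' h2 h1 h5 h6 h3 h4 h7 h8 (of_not hr hb.symm hbb) hcc
  · exact contains_of hr a b' b c' c h2 h1 h6 h5 h4 h3 h8 h7 (of_not hr hb.symm hbb)
      (of_not hr hc.symm hcc)

/-- The arcs in infinitely many directed triangles. -/
def B (r : V → V → Prop) : V → V → Prop := fun a b => r a b ∧ {c | r b c ∧ r c a}.Infinite

lemma claim3 (hr : IsTournament r) (hfree : ¬ Pat r) {a b : V} (h : B r a b) (v : V) :
    ¬ (r a v ∧ r v b) := by
  rintro ⟨hav, hvb⟩
  obtain ⟨hab, hinf⟩ := h
  apply hinf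
  have hsub : {c | r b c ∧ r c a} ⊆ {c | (r b c ∧ r c a) ∧ r v c} ∪ {c | (r b c ∧ r c a) ∧ r c v} := by
    intro c hc
    have hcv : c ≠ v := by
      rintro rfl
      exact asymm hr hav hc.2
    by_cases h : r v c
    · exact Or.inl ⟨hc, h⟩
    · exact Or.inr ⟨hc, of_not hr hcv h⟩
  refine Set.Finite.subset (Set.Finite.union ?_ ?_) hsub
  · apply Set.Subsingleton.finite
    rintro c ⟨⟨h1, h2⟩, h3⟩ c' ⟨⟨h1', h2'⟩, h3'⟩
    by_contra hne
    exact hfree ⟨a, b, v, c, c', (ne_of hr hvb).symm, hne, hab, hav, h1, h1', h3, h3', h2, h2'⟩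
  · apply Set.Subsingleton.finite
    rintro c ⟨⟨h1, h2⟩, h3⟩ c' ⟨⟨h1', h2'⟩, h3'⟩
    by_contra hne
    exact hfree ⟨b, c, c', a, v, hne, ne_of hr hav, h1, h1', h2, h3, h2', h3', hab, hvb⟩

lemma out_unique (hr : IsTournament r) (hfree : ¬ Pat r) {a b b' : V} (h : B r a b)
    (h' : B r a b') : b = b' := by
  by_contra hne
  by_cases hb : r b b'
  · exact claim3 hr hfree h' b ⟨h.1, hb⟩
  · exact claim3 hr hfree h b' ⟨h'.1, of_not hr (Ne.symm hne) hb⟩

lemma in_unique (hr : IsTournament r) (hfree : ¬ Pat r) {a a' b : V} (h : B r a b)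
    (h' : B r a' b) : a = a' := by
  by_contra hne
  by_cases hb : r a a'
  · exact claim3 hr hfree h a' ⟨hb, h'.1⟩
  · exact claim3 hr hfree h' a ⟨of_not hr (Ne.symm hne) hb, h.1⟩

lemma B_finite (hr : IsTournament r) (hfree : ¬ Pat r) (x : V) :
    {y | B r x y ∨ B r y x}.Finite := by
  have : {y | B r x y ∨ B r y x} = {y | B r x y} ∪ {y | B r y x} := rfl
  rw [this]
  refine Set.Finite.union (Set.Subsingleton.finite ?_) (Set.Subsingleton.finite ?_)
  · intro y hy z hz; exact out_unique hr hfree hy hz
  · intro y hy z hz; exact in_unique hr hfree hy hz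

lemma reverse_tournament (hr : IsTournament r) {F : V → V → Prop} (hF : ∀ x y, F x y → r x y) :
    IsTournament (reverse r F) := by
  constructor
  · rintro x (h | h)
    · exact hr.1 x h.1
    · exact hr.1 x (hF _ _ h)
  · intro x y hxy
    have h1 := hF x y
    have h2 := hF y x
    have h3 := hr.2 x y hxy
    have h4 := hr.2 y x hxy.symm
    unfold reverse
    tauto

/-- After the reversal of the arcs in infinitely many triangles, every arc is in finitely many
triangles. -/
lemma claim5 (hr : IsTournament r) (hfree : ¬ Pat r) {u v : V} (h : reverse r (B r) u v) :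
    {x | reverse r (B r) v x ∧ reverse r (B r) x u}.Finite := by
  have hBv := B_finite hr hfree v
  have hBu := B_finite hr hfree u
  have hsub : {x | reverse r (B r) v x ∧ reverse r (B r) x u} ⊆
      {x | r v x ∧ r x u} ∪ ({y | B r v y ∨ B r y v} ∪ {y | B r u y ∨ B r y u}) := by
    rintro x ⟨h1, h2⟩
    by_cases e1 : B r v x ∨ B r x v
    · exact Or.inr (Or.inl e1)
    by_cases e2 : B r u x ∨ B r x u
    · exact Or.inr (Or.inr e2)
    left
    unfold reverse at h1 h2
    constructor <;> tauto
  refine Set.Finite.subset (Set.Finite.union ?_ (Set.Finite.union hBv hBu)) hsub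
  rcases h with ⟨h1, h2⟩ | h
  · by_contra hinf
    exact h2 ⟨h1, hinf⟩
  · convert Set.finite_empty
    ext x
    constructor
    · intro hx; exact claim3 hr hfree h x hx
    · intro hx; exact hx.elim

/-- `v ≽ u`: almost all out-neighbours of `v` are out-neighbours of `u`. -/
def Le (s : V → V → Prop) (u v : V) : Prop := {x | s v x ∧ ¬ s u x}.Finite

lemma le_trans' {s : V → V → Prop} {u v w : V} (h1 : Le s u v) (h2 : Le s v w) : Le s u w := by
  refine (Set.Finite.union h1 h2).subset ?_
  rintro x ⟨hx, hx'⟩
  by_cases h : s v x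
  · exact Or.inl ⟨h, hx'⟩
  · exact Or.inr ⟨hx, h⟩

lemma le_refl' {s : V → V → Prop} (u : V) : Le s u u := by
  refine Set.finite_empty.subset ?_
  rintro x ⟨h1, h2⟩
  exact h2 h1

lemma le_of_arc {s : V → V → Prop} (hs : IsTournament s)
    (hfin : ∀ u v, s u v → {x | s v x ∧ s x u}.Finite) {u v : V} (h : s u v) : Le s u v := by
  refine ((hfin u v h).union (Set.finite_singleton u)).subset ?_
  rintro x ⟨h1, h2⟩
  by_cases hx : x = u
  · exact Or.inr hx
  · exact Or.inl ⟨h1, of_not hs hx h2⟩

lemma le_total' {s : V → V → Prop} (hs : IsTournament s)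
    (hfin : ∀ u v, s u v → {x | s v x ∧ s x u}.Finite) (u v : V) : Le s u v ∨ Le s v u := by
  by_cases h : u = v
  · subst h; exact Or.inl (le_refl' u)
  by_cases h' : s u v
  · exact Or.inl (le_of_arc hs hfin h')
  · exact Or.inr (le_of_arc hs hfin (of_not hs (Ne.symm h) h'))

/-- A countable tournament all whose arcs are in finitely many triangles differs from a linear
order in a locally finite set of pairs. -/
theorem claim6 [Countable V] {s : V → V → Prop} (hs : IsTournament s)
    (hfin : ∀ u v, s u v → {x | s v x ∧ s x u}.Finite) :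
    ∃ l : V → V → Prop, IsTournament l ∧ IsTransitive l ∧
      ∀ x, {y | ¬ (s x y ↔ l x y)}.Finite := by
  classical
  obtain ⟨f, hf⟩ := Countable.exists_injective_nat V
  let E : Setoid V :=
    { r := fun u v => Le s u v ∧ Le s v u
      iseqv := ⟨fun u => ⟨le_refl' u, le_refl' u⟩, fun h => ⟨h.2, h.1⟩,
        fun h1 h2 => ⟨le_trans' h1.1 h2.1, le_trans' h2.2 h1.2⟩⟩ }
  let rep : V → V := fun x => (Quotient.mk E x).out
  have hrep : ∀ x, Le s (rep x) x ∧ Le s x (rep x) := fun x => Quotient.mk_out (s := E) x
  have hrepeq : ∀ x y, Le s x y → Le s y x → rep x = rep y := by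
    intro x y h1 h2
    have : Quotient.mk E x = Quotient.mk E y := Quotient.sound (s := E) ⟨h1, h2⟩
    simp only [rep, this]
  let g : V → ℤ := fun x => if s (rep x) x then (f x : ℤ) else - 1 - (f x : ℤ)
  have hg : Function.Injective g := by
    intro x y hxy
    apply hf
    simp only [g] at hxy
    split_ifs at hxy <;> omega
  let l : V → V → Prop := fun x y => ¬ Le s y x ∨ (Le s x y ∧ g x < g y)
  have hl : IsTournament l := by
    constructor
    · rintro x (h | h)
      · exact h (le_refl' x)
      · exact lt_irrefl _ h.2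
    · intro x y hxy
      have ht := le_total' hs hfin x y
      have h3 : g x ≠ g y := fun h => hxy (hg h)
      have h4 : g x < g y ↔ ¬ g y < g x := by omega
      simp only [l]
      tauto
  have hlt : IsTransitive l := by
    intro x y z hxy hyz
    have hyz' : Le s y z := by
      rcases hyz with h | h
      · exact (le_total' hs hfin y z).resolve_right h
      · exact h.1
    rcases hxy with h | h
    · exact Or.inl fun h' => h (le_trans' hyz' h')
    · rcases hyz with h' | h'
      · exact Or.inl fun h'' => h' (le_trans' h'' h.1)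
      · exact Or.inr ⟨le_trans' h.1 h'.1, h.2.trans h'.2⟩
  refine ⟨l, hl, hlt, ?_⟩
  intro x
  have hN : {y : V | (f y : ℤ) ≤ |g x| + 1}.Finite := by
    have : {y : V | (f y : ℤ) ≤ |g x| + 1} ⊆ f ⁻¹' (Set.Iic (|g x| + 1).toNat) := by
      intro y hy
      have hy' : (f y : ℤ) ≤ |g x| + 1 := hy
      show f y ≤ (|g x| + 1).toNat
      omega
    exact ((Set.finite_Iic _).preimage hf.injOn).subset this
  refine (((hrep x).2.union (hrep x).1).union hN).subset ?_
  intro y hy
  by_contra hcon
  apply hy
  have c1 : ¬ (s (rep x) y ∧ ¬ s x y) := fun h => hcon (Or.inl (Or.inl h))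
  have c2 : ¬ (s x y ∧ ¬ s (rep x) y) := fun h => hcon (Or.inl (Or.inr h))
  have c3 : ¬ ((f y : ℤ) ≤ |g x| + 1) := fun h => hcon (Or.inr h)
  have hne : x ≠ y := by
    rintro rfl
    apply c3
    simp only [g]
    split_ifs
    · have := abs_nonneg (f x : ℤ)
      have := le_abs_self (f x : ℤ)
      omega
    · have := neg_le_abs (- 1 - (f x : ℤ))
      omega
  by_cases hyx : Le s y x
  · by_cases hxy : Le s x y
    · have hr : rep y = rep x := hrepeq y x hyx hxy
      have hgy : g x < g y ↔ s (rep x) y := by
        simp only [g] at c3 ⊢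
        rw [hr]
        have a1 := neg_le_abs (if s (rep x) x then (f x : ℤ) else - 1 - (f x : ℤ))
        have a2 := le_abs_self (if s (rep x) x then (f x : ℤ) else - 1 - (f x : ℤ))
        by_cases hd : s (rep x) y
        · simp only [hd, if_true, iff_true]
          omega
        · simp only [hd, if_false, iff_false]
          omega
      have : l x y ↔ g x < g y := by
        simp only [l]
        tauto
      rw [this, hgy]
      tauto
    · have h1 : ¬ s x y := fun h => hxy (le_of_arc hs hfin h)
      have h2 : ¬ l x y := by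
        simp only [l]
        tauto
      tauto
  · have h1 : s x y := of_not hs hne fun h => hyx (le_of_arc hs hfin h)
    have h2 : l x y := Or.inl hyx
    tauto

/-- Every countable tournament without a copy of `T` differs from a linear order in a locally
finite set of pairs. -/
theorem close_to_order [Countable V] (hr : IsTournament r) (hfree : ¬ Pat r) :
    ∃ l : V → V → Prop, IsTournament l ∧ IsTransitive l ∧
      ∀ x, {y | ¬ (r x y ↔ l x y)}.Finite := by
  obtain ⟨l, h1, h2, h3⟩ := claim6 (reverse_tournament hr (F := B r) fun x y h => h.1)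
    fun u v h => claim5 hr hfree h
  refine ⟨l, h1, h2, fun x => ((h3 x).union (B_finite hr hfree x)).subset ?_⟩
  intro y hy
  by_cases h : B r x y ∨ B r y x
  · exact Or.inr h
  · left
    have h5 : ¬ (r x y ↔ l x y) := hy
    show ¬ (reverse r (B r) x y ↔ l x y)
    unfold reverse
    tauto

lemma not_pat_of_transitive (hr : IsTournament r) (ht : IsTransitive r) : ¬ Pat r := by
  rintro ⟨a, b, b', c, c', -, -, h1, h2, h3, h4, h5, h6, h7, h8⟩
  exact hr.1 a (ht _ _ _ (ht _ _ _ h1 h3) h7)

/-- One reversed arc in a linear order creates no copy of `T`. -/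
lemma not_pat_one (hr : IsTournament r) (ht : IsTransitive r) {x y : V} (hxy : r x y) :
    ¬ Pat (reverse r (fun u v => u = x ∧ v = y)) := by
  have hne := ne_of hr hxy
  have key : ∀ a b c, reverse r (fun u v => u = x ∧ v = y) a b →
      reverse r (fun u v => u = x ∧ v = y) b c → reverse r (fun u v => u = x ∧ v = y) c a →
      (a = y ∧ b = x) ∨ (b = y ∧ c = x) ∨ (c = y ∧ a = x) := by
    intro a b c h1 h2 h3
    rcases h1 with h1 | h1
    · rcases h2 with h2 | h2
      · rcases h3 with h3 | h3
        · exact (hr.1 a (ht _ _ _ (ht _ _ _ h1.1 h2.1) h3.1)).elim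
        · exact Or.inr (Or.inr ⟨h3.2, h3.1⟩)
      · exact Or.inr (Or.inl ⟨h2.2, h2.1⟩)
    · exact Or.inl ⟨h1.2, h1.1⟩
  have hirr : ∀ a, ¬ reverse r (fun u v => u = x ∧ v = y) a a := by
    rintro a (h | h)
    · exact hr.1 a h.1
    · exact hne (h.1.symm.trans h.2)
  rintro ⟨a, b, b', c, c', hb, hc, h1, h2, h3, h4, h5, h6, h7, h8⟩
  have n1 : a ≠ b := by rintro rfl; exact hirr _ h1
  have n2 : a ≠ b' := by rintro rfl; exact hirr _ h2
  have n3 : c ≠ a := by rintro rfl; exact hirr _ h7
  have n4 : c' ≠ a := by rintro rfl; exact hirr _ h8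
  have n5 : b ≠ c' := by rintro rfl; exact hirr _ h4
  have n6 : b' ≠ c := by rintro rfl; exact hirr _ h5
  rcases key a b c h1 h3 h7 with h | h | h <;> rcases key a b' c' h2 h6 h8 with h' | h' | h' <;>
    obtain ⟨e1, e2⟩ := h <;> obtain ⟨e3, e4⟩ := h' <;> subst_vars <;> simp_all

/-- Every countably infinite `T`-free tournament has a `T`-free locally finite perturbation. -/
theorem exists_perturbation [Countable V] [Infinite V] (hr : IsTournament r)
    (hfree : ¬ Contains T r) : ∃ s, Perturbation r s ∧ ¬ Contains T s := by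
  classical
  have hfree' : ¬ Pat r := fun h => hfree (contains_of_pat hr h)
  obtain ⟨l, hl, hlt, hfin⟩ := close_to_order hr hfree'
  by_cases hF : ∃ x y, r x y ∧ ¬ l x y
  · refine ⟨reverse r (fun x y => r x y ∧ ¬ l x y), ⟨_, ⟨fun x y h => h.1, ?_⟩, hF, rfl⟩, ?_⟩
    · intro x
      refine (hfin x).subset ?_
      rintro y (⟨h1, h2⟩ | ⟨h1, h2⟩)
      · intro h
        exact h2 (h.1 h1)
      · intro h
        have hne := ne_of hr h1
        exact asymm hr h1 (h.2 (of_not hl hne.symm h2))
    · have : reverse r (fun x y => r x y ∧ ¬ l x y) = l := by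
        ext x y
        by_cases hxy : x = y
        · subst hxy
          have h1 := hr.1 x
          have h2 := hl.1 x
          unfold reverse
          tauto
        · have h1 := hr.2 x y hxy
          have h2 := hl.2 x y hxy
          unfold reverse
          tauto
      rw [this]
      exact fun h => not_pat_of_transitive hl hlt (pat_of_contains h)
  · push Not at hF
    obtain ⟨x, y, hxy⟩ : ∃ x y, r x y := by
      obtain ⟨x, y, hne⟩ := exists_pair_ne V
      by_cases h : r x y
      · exact ⟨x, y, h⟩
      · exact ⟨y, x, of_not hr hne.symm h⟩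
    have hrt : IsTransitive r := by
      intro a b c h1 h2
      have h3 := hlt _ _ _ (hF _ _ h1) (hF _ _ h2)
      refine of_not hr (ne_of hl h3) fun h4 => asymm hl h3 (hF _ _ h4)
    refine ⟨reverse r (fun u v => u = x ∧ v = y), ⟨_, ⟨?_, ?_⟩, ⟨x, y, rfl, rfl⟩, rfl⟩, ?_⟩
    · rintro u v ⟨rfl, rfl⟩
      exact hxy
    · intro z
      refine ((Set.finite_singleton x).union (Set.finite_singleton y)).subset ?_
      rintro w (⟨-, h⟩ | ⟨h, -⟩)
      · exact Or.inr h
      · exact Or.inl h
    · exact fun h => not_pat_one hr hrt hxy (pat_of_contains h)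

/-- **Answer to Q1: no.** (1) `T`, the directed triangle with two doubled vertices, is a finite
tournament which is not transitive, and every countably infinite tournament without a copy of `T`
has a locally finite perturbation without a copy of `T`. (2) Every countable tournament without a
copy of `T` differs from a strict linear order only in a locally finite set of pairs. -/
theorem result :
    (IsTournament T ∧ ¬ IsTransitive T ∧
      ∀ (V : Type) [Countable V] [Infinite V] (r : V → V → Prop), IsTournament r →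
        ¬ Contains T r → ∃ s, Perturbation r s ∧ ¬ Contains T s) ∧
    (∀ (V : Type) [Countable V] (r : V → V → Prop), IsTournament r → ¬ Contains T r →
      ∃ l : V → V → Prop, IsTournament l ∧ IsTransitive l ∧
        ∀ x, {y | ¬ (r x y ↔ l x y)}.Finite) := by
  refine ⟨⟨T_tournament, T_not_transitive, ?_⟩, ?_⟩
  · intro V _ _ r hr h
    exact exists_perturbation hr h
  · intro V _ r hr h
    exact close_to_order hr fun h' => h (contains_of_pat hr h')

end Pool.Agent.Results.MP_35c2f5_co.BlownUpTriangle
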